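import Pool.Agent.H24.UG.T7
import Pool.Agent.H33.AG.CLM

/-!
# UCM: the mass of the classes
-/

set_option autoImplicit false

open MeasureTheory ProbabilityTheory Filter Topology Finset
open scoped Nat ENNReal

namespace Pool.Agent.H61.UG

open Pool.Agent.H24.UG
open Pool.Agent.H67.AG (avgP ul Inv Rt Av SA kap JJ TT InvZ nxt triv tow XN PN TN XX PX TX prX Fac
  Tup dl Dlt Mis bd κ₀ Sw SwE)
open Pool.Agent.H33.AG (meas_Inv Inv_le_Rt Rt_le fst_Rt snd_Rt)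

theorem Y_Rt (c : CxE) : MeasurableSet[Rt c.T] c.Y :=
  Inv_le_Rt c.T c.Qpos _ (meas_Inv.2 ⟨c.Ym, c.Yinv⟩)

theorem Xg_Rt (c : CxE) : MeasurableSet[Rt c.T] c.Xg := by
  have h1 : MeasurableSet[Rt c.T] {x | c.e x ≤ 4 * κ₀ * c.γ ^ 3} := c.em measurableSet_Iic
  exact (Y_Rt c).inter h1

theorem MR_meas (c : CxE) (Z : SA c.X) : Measurable[Rt (TT c.T)] (c.MR Z) := by
  have h : c.MR Z = fun q => ∑ i, ((JJ c.μ Z)[dl c.D1 c.D2 i | Rt (TT c.T)]) q := rfl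
  rw [h]
  exact Finset.measurable_sum _ fun i _ => stronglyMeasurable_condExp.measurable

theorem Rel_Rt (c : CxE) (Z : SA c.X) : MeasurableSet[Rt (TT c.T)] (c.Rel Z) := by
  have h1 := fst_Rt c.T (Xg_Rt c)
  have h2 := snd_Rt c.T (Xg_Rt c)
  have h3 : MeasurableSet[Rt (TT c.T)] {q | c.MR Z q ≤ c.γ / 2} := (MR_meas c Z) measurableSet_Iic
  exact h1.inter (h2.inter h3)

theorem pf_UCM (hck : Pool.Agent.H40.AG.T_CK) (hj1 : Pool.Agent.H67.AG.T_J1)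
    (hj2 : Pool.Agent.H67.AG.T_J2) : T_UCM := by
  intro c Z hZ hCP
  have hT : MeasurePreserving c.T c.μ c.μ := c.erg.toMeasurePreserving
  have hRel := Rel_Rt c Z
  have hRelm : MeasurableSet (c.Rel Z) := Rt_le _ _ hRel
  obtain ⟨cc, hcm, hc01, hcae⟩ := hck c.X c.μ c.T Z (c.Rel Z) hT hZ hRel
  have hCP' : 0 < (JJ c.μ Z).real (c.Rel Z) := hCP
  have hcm' : Measurable cc := hcm.mono (Rt_le _) le_rfl
  -- the sets
  have hX1 : ∀ N : ℕ, MeasurableSet[Rt c.T] (c.Xg ∩ {x | 1 / ((N : ℝ) + 1) ≤ cc x}) := fun N =>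
    (Xg_Rt c).inter (hcm measurableSet_Ici)
  obtain ⟨N, hN⟩ : ∃ N : ℕ, 0 < c.μ.real (c.Xg ∩ {x | 1 / ((N : ℝ) + 1) ≤ cc x}) := by
    by_contra hcon
    push Not at hcon
    have h0 : ∀ N : ℕ, c.μ (c.Xg ∩ {x | 1 / ((N : ℝ) + 1) ≤ cc x}) = 0 := by
      intro N
      have h1 := le_antisymm (hcon N) measureReal_nonneg
      exact (measureReal_eq_zero_iff).1 h1
    have h1 : ∀ᵐ x ∂c.μ, ∀ N : ℕ, x ∉ (c.Xg ∩ {x | 1 / ((N : ℝ) + 1) ≤ cc x}) :=
      ae_all_iff.2 fun N => measure_eq_zero_iff_ae_notMem.1 (h0 N)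
    have h2 : ∀ᵐ x ∂c.μ, (kap c.μ Z x) (Prod.mk x ⁻¹' (Prod.swap ⁻¹' (c.Rel Z))) = 0 := by
      filter_upwards [h1, hcae] with x hx1 hx2
      have h3 : (Prod.mk x ⁻¹' (Prod.swap ⁻¹' (c.Rel Z))) = {x' | (x', x) ∈ c.Rel Z} := rfl
      rw [h3]
      by_cases hxg : x ∈ c.Xg
      · have h4 : cc x = 0 := by
          by_contra hne
          have hpos : 0 < cc x := lt_of_le_of_ne (hc01 x).1 (Ne.symm hne)
          obtain ⟨N, hN⟩ := exists_nat_one_div_lt hpos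
          exact hx1 N ⟨hxg, hN.le⟩
        rw [h4] at hx2
        exact (measureReal_eq_zero_iff).1 hx2
      · have h5 : {x' | (x', x) ∈ c.Rel Z} = (∅ : Set c.X) := by
          rw [Set.eq_empty_iff_forall_notMem]
          intro x' hx'
          exact hxg hx'.2.1
        rw [h5, measure_empty]
    have h6 : (JJ c.μ Z) (Prod.swap ⁻¹' (c.Rel Z)) = 0 := by
      rw [JJ, Measure.compProd_apply (measurable_swap hRelm), lintegral_congr_ae h2]
      simp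
    have h7 := (hj2 c.X c.μ Z).2.2.2.measure_preimage hRelm.nullMeasurableSet
    rw [h6] at h7
    have h8 : (JJ c.μ Z).real (c.Rel Z) = 0 := by
      rw [measureReal_def, ← h7]
      rfl
    linarith
  refine ⟨1 / ((N : ℝ) + 1), c.Xg ∩ {x | 1 / ((N : ℝ) + 1) ≤ cc x}, by positivity, ?_, hX1 N,
    Set.inter_subset_left, hN, ?_⟩
  · rw [div_le_one (by positivity)]
    linarith [Nat.cast_nonneg (α := ℝ) N]
  · filter_upwards [hcae] with x hx hx1
    rw [hx]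
    exact hx1.2

end Pool.Agent.H61.UG
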